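import Mathlib
import Pool.Agent.X321.DR.Fml

set_option autoImplicit false

/-! The powers of a constant in a field of rational functions. -/

namespace Pool.Agent.X321.OG

open Polynomial Pool.Agent.X321.DR

/-- the definition of the set of the powers of `t` -/
def Pw {K : Type} [Field K] (s t c : K) : Prop :=
  InD c ∧ ∃ f : K, f ≠ 0 ∧ E s c f ∧
    ∀ a : K, ¬ (InD a ∧ E s a f) ∨ (a = 1 ∨ ∃ b : K, b * t = a ∧ InD b ∧ E s b f)

section

variable {K : Type} [Field K] [LinearOrder K] [IsStrictOrderedRing K]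

omit [IsStrictOrderedRing K] in
/-- `E` for products of linear factors -/
lemma E_prod' (s : K) (b : ℕ → K)
    (hh : ∀ i j, i ≠ j → ∃ β γ : K, 4 * β * γ = 1 ∧ β ^ 2 + γ ^ 2 = |b i - b j|)
    (n a : ℕ) (ha : a ≤ n) : E s (b a) (∏ j ∈ Finset.range (n + 1), (s - b j)) := by
  have hG : ∀ t : Finset ℕ, a ∉ t → G s (b a) (∏ j ∈ t, (s - b j)) := by
    intro t
    induction t using Finset.induction_on with
    | empty =>
      intro _
      rw [Finset.prod_empty]
      exact G_one s _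
    | insert j t hj ih =>
      intro hat
      rw [Finset.mem_insert, not_or] at hat
      rw [Finset.prod_insert hj]
      refine G_mul ?_ (ih hat.2)
      obtain ⟨β, γ, h1, h2⟩ := hh a j hat.1
      rcases abs_choice (b a - b j) with h | h
      · rw [h] at h2
        have h3 := (G_lin s (b a) _ β γ h1 h2).2
        have h4 : (s - b a) + (b a - b j) = s - b j := by ring
        rwa [h4] at h3
      · rw [h] at h2
        have h3 := (G_lin s (b a) _ β γ h1 h2).1
        have h4 : (s - b a) - (-(b a - b j)) = s - b j := by ring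
        rwa [h4] at h3
  have h1 : ∏ j ∈ Finset.range (n + 1), (s - b j) =
      (s - b a) * ∏ j ∈ (Finset.range (n + 1)).erase a, (s - b j) :=
    (Finset.mul_prod_erase _ _ (Finset.mem_range.2 (by omega))).symm
  obtain ⟨x, y, h2⟩ := hG ((Finset.range (n + 1)).erase a) (Finset.notMem_erase _ _)
  refine ⟨x, y, ?_⟩
  rw [h1]
  rcases h2 with h2 | h2
  · left; rw [h2]
  · right; rw [h2]; ring

variable {F : Type} [Field F] [LinearOrder F] [IsStrictOrderedRing F] [Algebra F K] {s : K}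
  (hs : Transcendental F s) (hK : ∀ x : K, ∃ p q : F[X], q ≠ 0 ∧ x * aeval s q = aeval s p)
  (t0 : F) (ht : 2 ≤ algebraMap F K t0)

include hs hK ht

lemma of_pw {c : K} (h : Pw s (algebraMap F K t0) c) : c = 0 ∨ ∃ n : ℕ, c = algebraMap F K t0 ^ n := by
  set t := algebraMap F K t0 with htdef
  obtain ⟨h1, f, hf, h2, h3⟩ := h
  by_contra hcon
  push Not at hcon
  obtain ⟨hc0, hcon⟩ := hcon
  have h4 : ∀ k : ℕ, ∃ b : K, b * t ^ k = c ∧ InD b ∧ E s b f := by
    intro k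
    induction k with
    | zero => exact ⟨c, by rw [pow_zero, mul_one], h1, h2⟩
    | succ k ih =>
      obtain ⟨b, hb, hb1, hb2⟩ := ih
      rcases (h3 b).resolve_left (not_not.2 ⟨hb1, hb2⟩) with h | ⟨b', hb', hb1', hb2'⟩
      · rw [h, one_mul] at hb
        exact absurd hb.symm (hcon k)
      · exact ⟨b', by rw [pow_succ', ← mul_assoc, hb', hb], hb1', hb2'⟩
  choose b hb hb1 hb2 using h4
  have h5 : ∀ k, ∃ b0 : F, b k = algebraMap F K b0 := fun k => by
    obtain ⟨y, hy⟩ := hb1 k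
    exact const_of_cubic hs hK _ y hy
  choose b0 hb0 using h5
  have h6 := finite_E hs hK f hf
  have h7 : Set.range b0 ⊆ {a : F | E s (algebraMap F K a) f} := by
    rintro _ ⟨k, rfl⟩
    change E s (algebraMap F K (b0 k)) f
    rw [← hb0]
    exact hb2 k
  have h8 : (Set.range b0).Infinite := by
    apply Set.infinite_range_of_injective
    intro k l hkl
    have h9 : b k = b l := by rw [hb0, hb0, hkl]
    have hbk : b k ≠ 0 := by
      intro e
      apply hc0
      rw [← hb k, e, zero_mul]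
    have h10 : t ^ k = t ^ l := by
      apply mul_left_cancel₀ hbk
      rw [hb k, h9, hb l]
    exact pow_right_injective₀ (by linarith) (by linarith) h10
  exact h8 (h6.subset h7)

lemma pw_of (hh : ∀ m : K, (∃ m0 : F, m = algebraMap F K m0) → 1 ≤ m →
      ∃ β γ : K, 4 * β * γ = 1 ∧ β ^ 2 + γ ^ 2 = m)
    (hc : ∀ n : ℕ, InD (algebraMap F K t0 ^ n)) (n : ℕ) :
    Pw s (algebraMap F K t0) (algebraMap F K t0 ^ n) := by
  set t := algebraMap F K t0 with htdef
  have hdiff : ∀ i j, i ≠ j → ∃ β γ : K, 4 * β * γ = 1 ∧ β ^ 2 + γ ^ 2 = |t ^ i - t ^ j| := by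
    have key : ∀ i j : ℕ, i < j → 1 ≤ t ^ j - t ^ i := by
      intro i j hij
      have h1 : t ^ j = t ^ i * t ^ (j - i) := by rw [← pow_add]; congr 1; omega
      have h2 : (2 : K) ≤ t ^ (j - i) := ht.trans (le_self_pow₀ (by linarith) (by omega))
      have h3 : (1 : K) ≤ t ^ i := one_le_pow₀ (by linarith)
      rw [h1]
      nlinarith
    intro i j hij
    refine hh _ ?_ ?_
    · rcases abs_choice (t ^ i - t ^ j) with h | h <;> rw [h]
      · exact ⟨t0 ^ i - t0 ^ j, by rw [map_sub, map_pow, map_pow]⟩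
      · exact ⟨-(t0 ^ i - t0 ^ j), by rw [map_neg, map_sub, map_pow, map_pow]⟩
    · rcases lt_or_gt_of_ne hij with h | h
      · rw [abs_sub_comm]
        exact (key i j h).trans (le_abs_self _)
      · exact (key j i h).trans (le_abs_self _)
  have hprod : ∏ j ∈ Finset.range (n + 1), (s - t ^ j) =
      aeval s (∏ j ∈ Finset.range (n + 1), (X - C (t0 ^ j)) : F[X]) := by
    rw [map_prod]
    refine Finset.prod_congr rfl fun j _ => ?_
    rw [map_sub, aeval_X, aeval_C, map_pow]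
  have hP : (∏ j ∈ Finset.range (n + 1), (X - C (t0 ^ j)) : F[X]) ≠ 0 :=
    Finset.prod_ne_zero_iff.2 fun j _ => X_sub_C_ne_zero _
  refine ⟨hc n, ∏ j ∈ Finset.range (n + 1), (s - t ^ j), ?_,
    E_prod' s (fun j => t ^ j) hdiff n n le_rfl, ?_⟩
  · rw [hprod]
    intro e
    exact hP (inj hs (by rw [e, map_zero]))
  · intro a
    by_cases ha : InD a ∧ E s a (∏ j ∈ Finset.range (n + 1), (s - t ^ j))
    · right
      obtain ⟨⟨y, hy⟩, h2⟩ := ha
      obtain ⟨c0, rfl⟩ := const_of_cubic hs hK a y hy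
      have h3 := root_of_E hs hK c0 _ (∏ j ∈ Finset.range (n + 1), (X - C (t0 ^ j)) : F[X]) 1
        (by rw [map_one, mul_one, hprod]) h2
      rw [mul_one, eval_prod, Finset.prod_eq_zero_iff] at h3
      obtain ⟨j, hj, h4⟩ := h3
      rw [eval_sub, eval_X, eval_C, sub_eq_zero] at h4
      rw [Finset.mem_range] at hj
      rw [h4, map_pow]
      rcases Nat.eq_zero_or_pos j with rfl | hj0
      · left
        exact pow_zero _
      · right
        refine ⟨t ^ (j - 1), ?_, hc _, E_prod' s (fun j => t ^ j) hdiff n (j - 1) (by omega)⟩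
        rw [← pow_succ]
        congr 1
        omega
    · exact Or.inl ha

end

section

open FirstOrder FirstOrder.Language FirstOrder.Ring

variable {K : Type} [Field K] [CompatibleRing K]

/-- variables: `s`, `t`, `c` -/
lemma df_Pw : Df Language.ring (fun v : Fin 3 → K => Pw (v 0) (v 1) (v 2)) := by
  unfold Pw
  have h1 : Df Language.ring (fun v : Fin 3 → K => InD (v 2)) :=
    (df_InD (K := K)).sub (fun _ => Term.var 2)
  refine h1.and (Df.congr (Df.ex (P := fun v : Fin 3 ⊕ Fin 1 → K => v (Sum.inr 0) ≠ 0 ∧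
    E (v (Sum.inl 0)) (v (Sum.inl 2)) (v (Sum.inr 0)) ∧
    ∀ a : K, ¬ (InD a ∧ E (v (Sum.inl 0)) a (v (Sum.inr 0))) ∨
      (a = 1 ∨ ∃ b : K, b * v (Sum.inl 1) = a ∧ InD b ∧ E (v (Sum.inl 0)) b (v (Sum.inr 0))))
    ?_) fun v => Iff.rfl)
  refine Df.and ?_ (Df.and ?_ ?_)
  · exact (Df.eq (K := K) (Term.var (Sum.inr 0) : Language.ring.Term (Fin 3 ⊕ Fin 1)) 0).not.congr
      fun v => by rw [realize_zero]; rfl
  · exact (df_E (K := K)).sub (![Term.var (Sum.inl 0), Term.var (Sum.inl 2), Term.var (Sum.inr 0)] :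
      Fin 3 → Language.ring.Term (Fin 3 ⊕ Fin 1))
  · let s : Language.ring.Term ((Fin 3 ⊕ Fin 1) ⊕ Fin 1) := Term.var (Sum.inl (Sum.inl 0))
    let f : Language.ring.Term ((Fin 3 ⊕ Fin 1) ⊕ Fin 1) := Term.var (Sum.inl (Sum.inr 0))
    let a : Language.ring.Term ((Fin 3 ⊕ Fin 1) ⊕ Fin 1) := Term.var (Sum.inr 0)
    refine Df.congr (Df.al (P := fun v : (Fin 3 ⊕ Fin 1) ⊕ Fin 1 → K =>
      ¬ (InD (v (Sum.inr 0)) ∧ E (v (Sum.inl (Sum.inl 0))) (v (Sum.inr 0))
        (v (Sum.inl (Sum.inr 0)))) ∨ (v (Sum.inr 0) = 1 ∨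
        ∃ b : K, b * v (Sum.inl (Sum.inl 1)) = v (Sum.inr 0) ∧ InD b ∧
          E (v (Sum.inl (Sum.inl 0))) b (v (Sum.inl (Sum.inr 0))))) ?_)
      fun v => Iff.rfl
    refine Df.or (Df.not (Df.and ?_ ?_)) (Df.or ?_ ?_)
    · exact (df_InD (K := K)).sub (fun _ => a)
    · exact (df_E (K := K)).sub (![s, a, f])
    · exact (Df.eq (K := K) a 1).congr fun v => by rw [realize_one]; rfl
    · let s' : Language.ring.Term (((Fin 3 ⊕ Fin 1) ⊕ Fin 1) ⊕ Fin 1) :=
        Term.var (Sum.inl (Sum.inl (Sum.inl 0)))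
      let t' : Language.ring.Term (((Fin 3 ⊕ Fin 1) ⊕ Fin 1) ⊕ Fin 1) :=
        Term.var (Sum.inl (Sum.inl (Sum.inl 1)))
      let f' : Language.ring.Term (((Fin 3 ⊕ Fin 1) ⊕ Fin 1) ⊕ Fin 1) :=
        Term.var (Sum.inl (Sum.inl (Sum.inr 0)))
      let a' : Language.ring.Term (((Fin 3 ⊕ Fin 1) ⊕ Fin 1) ⊕ Fin 1) :=
        Term.var (Sum.inl (Sum.inr 0))
      let b' : Language.ring.Term (((Fin 3 ⊕ Fin 1) ⊕ Fin 1) ⊕ Fin 1) := Term.var (Sum.inr 0)
      refine Df.congr (Df.ex (P := fun v : ((Fin 3 ⊕ Fin 1) ⊕ Fin 1) ⊕ Fin 1 → K =>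
        v (Sum.inr 0) * v (Sum.inl (Sum.inl (Sum.inl 1))) = v (Sum.inl (Sum.inr 0)) ∧
        InD (v (Sum.inr 0)) ∧ E (v (Sum.inl (Sum.inl (Sum.inl 0)))) (v (Sum.inr 0))
          (v (Sum.inl (Sum.inl (Sum.inr 0))))) ?_) fun v => Iff.rfl
      refine Df.and ?_ (Df.and ?_ ?_)
      · refine (Df.eq (K := K) (b' * t') a').congr fun v => ?_
        rw [realize_mul]
        rfl
      · exact (df_InD (K := K)).sub (fun _ => b')
      · exact (df_E (K := K)).sub (![s', b', f'])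

variable [LinearOrder K] [Language.order.Structure K] [Language.order.OrderedStructure K]

/-- the formula -/
theorem exists_formula' : ∃ ψ : (Language.ring.sum Language.order).Formula (Fin 1 ⊕ Fin 2),
    ∀ s t x : K, (∃ c : K, Pw s t c ∧ x ≤ c ∧ -x ≤ c) ↔
      ψ.Realize (Sum.elim (fun _ => x) ![s, t]) := by
  have h : Df (Language.ring.sum Language.order) (fun v : Fin 1 ⊕ Fin 2 → K =>
      ∃ c : K, Pw (v (Sum.inr 0)) (v (Sum.inr 1)) c ∧ v (Sum.inl 0) ≤ c ∧
        ∃ y : K, v (Sum.inl 0) + y = 0 ∧ y ≤ c) := by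
    refine Df.congr (Df.ex (P := fun v : (Fin 1 ⊕ Fin 2) ⊕ Fin 1 → K =>
      Pw (v (Sum.inl (Sum.inr 0))) (v (Sum.inl (Sum.inr 1))) (v (Sum.inr 0)) ∧
      v (Sum.inl (Sum.inl 0)) ≤ v (Sum.inr 0) ∧
      ∃ y : K, v (Sum.inl (Sum.inl 0)) + y = 0 ∧ y ≤ v (Sum.inr 0)) ?_) fun v => Iff.rfl
    refine Df.and ?_ (Df.and (df_le _ _) ?_)
    · exact df_ring ((df_Pw (K := K)).sub (![Term.var (Sum.inl (Sum.inr 0)),
        Term.var (Sum.inl (Sum.inr 1)), Term.var (Sum.inr 0)]))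
    · refine Df.congr (Df.ex (P := fun v : ((Fin 1 ⊕ Fin 2) ⊕ Fin 1) ⊕ Fin 1 → K =>
        v (Sum.inl (Sum.inl (Sum.inl 0))) + v (Sum.inr 0) = 0 ∧
        v (Sum.inr 0) ≤ v (Sum.inl (Sum.inr 0))) ?_) fun v => Iff.rfl
      refine Df.and (df_ring ?_) (df_le _ _)
      refine (Df.eq (K := K) ((Term.var (Sum.inl (Sum.inl (Sum.inl 0))) + Term.var (Sum.inr 0)) :
        Language.ring.Term (((Fin 1 ⊕ Fin 2) ⊕ Fin 1) ⊕ Fin 1)) 0).congr fun v => ?_
      rw [realize_add, realize_zero]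
      rfl
  obtain ⟨ψ, hψ⟩ := h
  refine ⟨ψ, fun s t x => ?_⟩
  rw [hψ]
  refine exists_congr fun c => and_congr Iff.rfl (and_congr Iff.rfl ?_)
  constructor
  · intro h
    exact ⟨-x, add_neg_cancel x, h⟩
  · rintro ⟨y, h1, h2⟩
    have h3 : y = -x := eq_neg_of_add_eq_zero_right h1
    rw [h3] at h2
    exact h2

end

end Pool.Agent.X321.OG
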