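import Mathlib

set_option autoImplicit false

/-! Definable sets in divisible ordered abelian groups. -/

namespace Pool.Agent.X321.OG

open FirstOrder FirstOrder.Language

/-- the function symbols `0`, `-`, `+` -/
inductive Fn : ℕ → Type
  | zero : Fn 0
  | neg : Fn 1
  | add : Fn 2

/-- the relation symbol `<` -/
inductive Rl : ℕ → Type
  | lt : Rl 2

/-- the language of ordered groups -/
def OGL : Language := ⟨Fn, Rl⟩

/-- an ordered abelian group as a structure -/
instance ogStructure (G : Type) [AddCommGroup G] [LinearOrder G] : OGL.Structure G where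
  funMap := fun {_} f => match f with
    | .zero => fun _ => 0
    | .neg => fun v => -v 0
    | .add => fun v => v 0 + v 1
  RelMap := fun {_} r => match r with
    | .lt => fun v => v 0 < v 1

variable {G : Type} [AddCommGroup G] [LinearOrder G] [IsOrderedAddMonoid G]

open SignType

lemma sign_zsmul (q : ℤ) (z : G) : sign (q • z) = sign q * sign z := by
  have hp : ∀ (q : ℤ) (z : G), 0 < q → 0 < z → 0 < q • z := fun q z hq hz => by
    obtain ⟨n, rfl⟩ := Int.eq_ofNat_of_zero_le hq.le
    rw [natCast_zsmul]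
    exact nsmul_pos hz (by omega)
  rcases lt_trichotomy q 0 with hq | rfl | hq
  · rcases lt_trichotomy z 0 with hz | rfl | hz
    · have h1 := hp (-q) (-z) (by omega) (neg_pos.2 hz)
      rw [neg_zsmul, zsmul_neg, neg_neg] at h1
      rw [sign_pos h1, sign_neg hq, sign_neg hz]
      rfl
    · rw [zsmul_zero, sign_zero, mul_zero]
    · have h1 := hp (-q) z (by omega) hz
      rw [neg_zsmul] at h1
      rw [sign_neg (neg_pos.1 h1), sign_neg hq, sign_pos hz]
      rfl
  · rw [zero_zsmul, sign_zero, sign_zero, zero_mul]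
  · rcases lt_trichotomy z 0 with hz | rfl | hz
    · have h1 := hp q (-z) hq (neg_pos.2 hz)
      rw [zsmul_neg] at h1
      rw [sign_neg (neg_pos.1 h1), sign_pos hq, sign_neg hz]
      rfl
    · rw [zsmul_zero, sign_zero, mul_zero]
    · rw [sign_pos (hp q z hq hz), sign_pos hq, sign_pos hz]
      rfl

lemma sign_sub_eq {a b c d : G} (h : sign (a - b) = sign (c - d)) : (a < b ↔ c < d) ∧
    (b < a ↔ d < c) := by
  rw [← sub_neg (a := a), ← sub_neg (a := c), ← sub_pos (a := a), ← sub_pos (a := c),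
    ← sign_eq_neg_one_iff, ← sign_eq_neg_one_iff, ← sign_eq_one_iff, ← sign_eq_one_iff, h]
  exact ⟨Iff.rfl, Iff.rfl⟩

/-- the elimination step -/
lemma elim_step [DenselyOrdered G] [NoMinOrder G] [NoMaxOrder G]
    (hdiv : ∀ (q : ℤ) (g : G), q ≠ 0 → ∃ h : G, q • h = g)
    {J : Type} (T : Finset J) (u u' : J → G) (q : J → ℤ)
    (h1 : ∀ j ∈ T, sign (u j) = sign (u' j))
    (h2 : ∀ j ∈ T, ∀ k ∈ T, sign (q k • u j - q j • u k) = sign (q k • u' j - q j • u' k))
    (y : G) : ∃ y' : G, ∀ j ∈ T, sign (u j + q j • y) = sign (u' j + q j • y') := by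
  classical
  have hr : ∀ j, ∃ r : G, q j ≠ 0 → q j • r = -u j := fun j => by
    by_cases hq : q j = 0
    · exact ⟨0, fun h => absurd hq h⟩
    · obtain ⟨h, hh⟩ := hdiv (q j) (-u j) hq
      exact ⟨h, fun _ => hh⟩
  have hr' : ∀ j, ∃ r : G, q j ≠ 0 → q j • r = -u' j := fun j => by
    by_cases hq : q j = 0
    · exact ⟨0, fun h => absurd hq h⟩
    · obtain ⟨h, hh⟩ := hdiv (q j) (-u' j) hq
      exact ⟨h, fun _ => hh⟩
  choose r hr using hr
  choose r' hr' using hr'
  have hs : ∀ j ∈ T, q j ≠ 0 → ∀ z, sign (u j + q j • z) = sign (q j) * sign (z - r j) := by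
    intro j _ hq z
    rw [← sign_zsmul, zsmul_sub, hr j hq, sub_neg_eq_add, add_comm]
  have hs' : ∀ j ∈ T, q j ≠ 0 → ∀ z, sign (u' j + q j • z) = sign (q j) * sign (z - r' j) := by
    intro j _ hq z
    rw [← sign_zsmul, zsmul_sub, hr' j hq, sub_neg_eq_add, add_comm]
  have hrr : ∀ j ∈ T, q j ≠ 0 → ∀ k ∈ T, q k ≠ 0 → sign (r k - r j) = sign (r' k - r' j) := by
    intro j hj hqj k hk hqk
    have h3 := h2 j hj k hk
    have e : q k • u j - q j • u k = (q j * q k) • (r k - r j) := by
      have e1 : u j = -(q j • r j) := by rw [hr j hqj, neg_neg]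
      have e2 : u k = -(q k • r k) := by rw [hr k hqk, neg_neg]
      rw [e1, e2, zsmul_sub, mul_zsmul, mul_zsmul, zsmul_neg, zsmul_neg,
        zsmul_comm (r j) (q k) (q j)]
      abel
    have e' : q k • u' j - q j • u' k = (q j * q k) • (r' k - r' j) := by
      have e1 : u' j = -(q j • r' j) := by rw [hr' j hqj, neg_neg]
      have e2 : u' k = -(q k • r' k) := by rw [hr' k hqk, neg_neg]
      rw [e1, e2, zsmul_sub, mul_zsmul, mul_zsmul, zsmul_neg, zsmul_neg,
        zsmul_comm (r' j) (q k) (q j)]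
      abel
    rw [e, e', sign_zsmul, sign_zsmul] at h3
    refine mul_left_cancel₀ ?_ h3
    rw [sign_ne_zero]
    exact mul_ne_zero hqj hqk
  by_cases hroot : ∃ j ∈ T, q j ≠ 0 ∧ y = r j
  · obtain ⟨j, hj, hqj, rfl⟩ := hroot
    refine ⟨r' j, fun k hk => ?_⟩
    by_cases hqk : q k = 0
    · rw [hqk, zero_zsmul, zero_zsmul, add_zero, add_zero]
      exact h1 k hk
    · rw [hs k hk hqk, hs' k hk hqk, hrr k hk hqk j hj hqj]
  · push Not at hroot
    let lo : Finset G := (T.filter fun j => q j ≠ 0 ∧ r j < y).image r'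
    let hi : Finset G := (T.filter fun j => q j ≠ 0 ∧ y < r j).image r'
    obtain ⟨m, hm1, hm2⟩ := Order.exists_between_finsets lo hi (by
      intro a ha b hb
      rw [Finset.mem_image] at ha hb
      obtain ⟨j, hj, rfl⟩ := ha
      obtain ⟨k, hk, rfl⟩ := hb
      rw [Finset.mem_filter] at hj hk
      have h3 := hrr j hj.1 hj.2.1 k hk.1 hk.2.1
      exact (sign_sub_eq h3).2.1 (hj.2.2.trans hk.2.2))
    refine ⟨m, fun k hk => ?_⟩
    by_cases hqk : q k = 0
    · rw [hqk, zero_zsmul, zero_zsmul, add_zero, add_zero]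
      exact h1 k hk
    · rw [hs k hk hqk, hs' k hk hqk]
      congr 1
      rcases lt_trichotomy y (r k) with h | h | h
      · rw [sign_neg (sub_neg.2 h), sign_neg (sub_neg.2 (hm2 _ (Finset.mem_image_of_mem _
          (Finset.mem_filter.2 ⟨hk, hqk, h⟩))))]
      · exact absurd h (hroot k hk hqk)
      · rw [sign_pos (sub_pos.2 h), sign_pos (sub_pos.2 (hm1 _ (Finset.mem_image_of_mem _
          (Finset.mem_filter.2 ⟨hk, hqk, h⟩))))]

/-- the value of a linear form -/
def ev {ι : Type} [Fintype ι] (a : ι → ℤ) (x : ι → G) : G := ∑ i, a i • x i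

omit [LinearOrder G] [IsOrderedAddMonoid G] in
lemma ev_add {ι : Type} [Fintype ι] (a b : ι → ℤ) (x : ι → G) : ev (a + b) x = ev a x + ev b x := by
  rw [ev, ev, ev, ← Finset.sum_add_distrib]
  exact Finset.sum_congr rfl fun i _ => add_zsmul _ _ _

omit [LinearOrder G] [IsOrderedAddMonoid G] in
lemma ev_neg {ι : Type} [Fintype ι] (a : ι → ℤ) (x : ι → G) : ev (-a) x = -ev a x := by
  rw [ev, ev, ← Finset.sum_neg_distrib]
  exact Finset.sum_congr rfl fun i _ => neg_zsmul _ _

omit [LinearOrder G] [IsOrderedAddMonoid G] in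
lemma ev_zsmul {ι : Type} [Fintype ι] (q : ℤ) (a : ι → ℤ) (x : ι → G) :
    ev (q • a) x = q • ev a x := by
  rw [ev, ev, Finset.smul_sum]
  exact Finset.sum_congr rfl fun i _ => mul_zsmul _ _ _

omit [IsOrderedAddMonoid G] in
/-- terms are linear forms -/
lemma exists_form {ι : Type} [Fintype ι] (t : OGL.Term ι) :
    ∃ a : ι → ℤ, ∀ x : ι → G, t.realize x = ev a x := by
  classical
  induction t with
  | var i =>
    refine ⟨Pi.single i 1, fun x => ?_⟩
    rw [Term.realize_var, ev, Finset.sum_eq_single i]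
    · rw [Pi.single_eq_same, one_zsmul]
    · intro j _ hj
      rw [Pi.single_eq_of_ne hj, zero_zsmul]
    · intro h
      exact absurd (Finset.mem_univ i) h
  | func f ts ih =>
    choose a ha using ih
    cases f with
    | zero =>
      refine ⟨0, fun x => ?_⟩
      change (0 : G) = _
      rw [ev]
      exact (Finset.sum_eq_zero fun i _ => zero_zsmul _).symm
    | neg =>
      refine ⟨-a 0, fun x => ?_⟩
      change -(ts 0).realize x = _
      rw [ev_neg, ← ha]
    | add =>
      refine ⟨a 0 + a 1, fun x => ?_⟩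
      change (ts 0).realize x + (ts 1).realize x = _
      rw [ev_add, ← ha, ← ha]

/-- formulas only depend on the signs of finitely many linear forms -/
theorem exists_forms [DenselyOrdered G] [NoMinOrder G] [NoMaxOrder G]
    (hdiv : ∀ (q : ℤ) (g : G), q ≠ 0 → ∃ h : G, q • h = g)
    {α : Type} [Fintype α] {n : ℕ} (φ : OGL.BoundedFormula α n) :
    ∃ S : Finset (α ⊕ Fin n → ℤ), ∀ (v v' : α → G) (xs xs' : Fin n → G),
      (∀ a ∈ S, sign (ev a (Sum.elim v xs)) = sign (ev a (Sum.elim v' xs'))) →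
        (φ.Realize v xs ↔ φ.Realize v' xs') := by
  classical
  induction φ with
  | falsum => exact ⟨∅, fun _ _ _ _ _ => Iff.rfl⟩
  | equal t₁ t₂ =>
    obtain ⟨a, ha⟩ := exists_form (G := G) t₁
    obtain ⟨b, hb⟩ := exists_form (G := G) t₂
    refine ⟨{a + -b}, fun v v' xs xs' h => ?_⟩
    have h1 := h _ (Finset.mem_singleton_self _)
    simp only [BoundedFormula.Realize, ha, hb]
    rw [ev_add, ev_neg, ev_add, ev_neg, ← sub_eq_add_neg, ← sub_eq_add_neg] at h1
    rw [← sub_eq_zero, ← sub_eq_zero (a := ev a (Sum.elim v' xs')), ← sign_eq_zero_iff, h1,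
      sign_eq_zero_iff]
  | rel r ts =>
    cases r with
    | lt =>
      obtain ⟨a, ha⟩ := exists_form (G := G) (ts 0)
      obtain ⟨b, hb⟩ := exists_form (G := G) (ts 1)
      refine ⟨{a + -b}, fun v v' xs xs' h => ?_⟩
      have h1 := h _ (Finset.mem_singleton_self _)
      change ((ts 0).realize (Sum.elim v xs) < (ts 1).realize (Sum.elim v xs)) ↔
        ((ts 0).realize (Sum.elim v' xs') < (ts 1).realize (Sum.elim v' xs'))
      rw [ha, hb, ha, hb]
      rw [ev_add, ev_neg, ev_add, ev_neg, ← sub_eq_add_neg, ← sub_eq_add_neg] at h1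
      exact (sign_sub_eq h1).1
  | imp φ ψ ih1 ih2 =>
    obtain ⟨S, hS⟩ := ih1
    obtain ⟨T, hT⟩ := ih2
    refine ⟨S ∪ T, fun v v' xs xs' h => ?_⟩
    rw [BoundedFormula.realize_imp, BoundedFormula.realize_imp,
      hS v v' xs xs' fun a ha => h a (Finset.mem_union_left _ ha),
      hT v v' xs xs' fun a ha => h a (Finset.mem_union_right _ ha)]
  | @all n φ ih =>
    obtain ⟨S, hS⟩ := ih
    let res : (α ⊕ Fin (n + 1) → ℤ) → (α ⊕ Fin n → ℤ) := fun a =>
      Sum.elim (fun i => a (Sum.inl i)) (fun i => a (Sum.inr i.castSucc))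
    let q : (α ⊕ Fin (n + 1) → ℤ) → ℤ := fun a => a (Sum.inr (Fin.last n))
    have hev : ∀ (a : α ⊕ Fin (n + 1) → ℤ) (v : α → G) (xs : Fin n → G) (y : G),
        ev a (Sum.elim v (Fin.snoc xs y)) = ev (res a) (Sum.elim v xs) + q a • y := by
      intro a v xs y
      rw [ev, ev, Fintype.sum_sum_type, Fintype.sum_sum_type, Fin.sum_univ_castSucc, add_assoc]
      simp only [Sum.elim_inl, Sum.elim_inr, Fin.snoc_castSucc, Fin.snoc_last, res, q]
    refine ⟨S.image res ∪ (S ×ˢ S).image (fun p => q p.2 • res p.1 + -(q p.1 • res p.2)),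
      fun v v' xs xs' h => ?_⟩
    have key : ∀ (v v' : α → G) (xs xs' : Fin n → G), (∀ a ∈ S.image res ∪
        (S ×ˢ S).image (fun p => q p.2 • res p.1 + -(q p.1 • res p.2)),
        sign (ev a (Sum.elim v xs)) = sign (ev a (Sum.elim v' xs'))) →
        (∀ y, φ.Realize v' (Fin.snoc xs' y)) → ∀ y, φ.Realize v (Fin.snoc xs y) := by
      intro v v' xs xs' h hr y
      obtain ⟨y', hy'⟩ := elim_step hdiv S (fun a => ev (res a) (Sum.elim v xs))
        (fun a => ev (res a) (Sum.elim v' xs')) q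
        (fun a ha => h _ (Finset.mem_union_left _ (Finset.mem_image_of_mem _ ha)))
        (fun a ha b hb => by
          have h1 : sign (ev (q b • res a + -(q a • res b)) (Sum.elim v xs)) =
              sign (ev (q b • res a + -(q a • res b)) (Sum.elim v' xs')) :=
            h _ (Finset.mem_union_right _ (Finset.mem_image_of_mem
              (fun p : (α ⊕ Fin (n + 1) → ℤ) × (α ⊕ Fin (n + 1) → ℤ) =>
                q p.2 • res p.1 + -(q p.1 • res p.2))
              (Finset.mem_product.2 ⟨ha, hb⟩ : (a, b) ∈ S ×ˢ S)))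
          rw [ev_add, ev_neg, ev_zsmul, ev_zsmul, ev_add, ev_neg, ev_zsmul, ev_zsmul,
            ← sub_eq_add_neg, ← sub_eq_add_neg] at h1
          exact h1) y
      refine (hS v v' _ _ fun a ha => ?_).2 (hr y')
      rw [hev, hev]
      exact hy' a ha
    rw [BoundedFormula.realize_all, BoundedFormula.realize_all]
    exact ⟨key v' v xs' xs fun a ha => (h a ha).symm, key v v' xs xs' h⟩

end Pool.Agent.X321.OG
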