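import Mathlib
import Pool.Agent.X321.OG.Lin

set_option autoImplicit false

/-! Divisible ordered abelian groups have no definable convex subgroups. -/

namespace Pool.Agent.X321.OG

open FirstOrder FirstOrder.Language SignType

variable {G : Type} [AddCommGroup G] [LinearOrder G] [IsOrderedAddMonoid G]

/-- the subgroup `H` is definable, with parameters, in the language of ordered groups -/
def GroupDefinable {G : Type} [AddCommGroup G] [LinearOrder G] (H : AddSubgroup G) : Prop :=
  ∃ (q : ℕ) (ψ : OGL.Formula (Fin 1 ⊕ Fin q)) (c : Fin q → G),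
    ∀ x : G, x ∈ H ↔ ψ.Realize (Sum.elim (fun _ => x) c)

theorem eq_bot_or_top (hdiv : ∀ (q : ℤ) (g : G), q ≠ 0 → ∃ h : G, q • h = g)
    (H : AddSubgroup G) (hconv : (H : Set G).OrdConnected) (hdef : GroupDefinable H) :
    H = ⊥ ∨ H = ⊤ := by
  classical
  by_contra hcon
  rw [not_or] at hcon
  obtain ⟨hbot, htop⟩ := hcon
  -- elements
  obtain ⟨h0, hh0, hh0pos⟩ : ∃ h ∈ H, 0 < h := by
    by_contra hc
    push Not at hc
    apply hbot
    rw [eq_bot_iff]
    intro x hx
    have h1 := hc x hx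
    have h2 := hc (-x) (H.neg_mem hx)
    exact le_antisymm h1 (neg_nonpos.1 h2)
  obtain ⟨g0, hg0, hg0pos⟩ : ∃ g, g ∉ H ∧ 0 < g := by
    by_contra hc
    push Not at hc
    apply htop
    rw [eq_top_iff]
    intro x _
    by_contra hx
    have h1 := hc x hx
    have h2 := hc (-x) (fun h => hx (by
      have := H.neg_mem h
      rwa [neg_neg] at this))
    have h3 : x = 0 := le_antisymm h1 (neg_nonpos.1 h2)
    exact hx (h3 ▸ H.zero_mem)
  have hnt : Nontrivial G := ⟨⟨h0, 0, hh0pos.ne'⟩⟩
  have hdense : DenselyOrdered G := ⟨fun a b hab => by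
    obtain ⟨h, hh⟩ := hdiv 2 (b - a) two_ne_zero
    have hpos : 0 < h := by
      by_contra hc
      have h1 : (2 : ℤ) • h ≤ 0 := by
        rw [two_zsmul]
        exact add_nonpos (not_lt.1 hc) (not_lt.1 hc)
      rw [hh] at h1
      exact absurd (sub_pos.2 hab) (not_lt.2 h1)
    refine ⟨a + h, lt_add_of_pos_right a hpos, ?_⟩
    have h2 : b = a + h + h := by
      rw [two_zsmul] at hh
      rw [add_assoc, hh, add_sub_cancel]
    rw [h2]
    exact lt_add_of_pos_right _ hpos⟩
  obtain ⟨q, ψ, c, hψ⟩ := hdef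
  obtain ⟨S, hS⟩ := exists_forms hdiv ψ
  -- the roots
  let k : (((Fin 1 ⊕ Fin q) ⊕ Fin 0) → ℤ) → ℤ := fun a => a (Sum.inl (Sum.inl 0))
  let r : (((Fin 1 ⊕ Fin q) ⊕ Fin 0) → ℤ) → G := fun a => ∑ i, a (Sum.inl (Sum.inr i)) • c i
  have hev : ∀ (a : ((Fin 1 ⊕ Fin q) ⊕ Fin 0) → ℤ) (x : G),
      ev a (Sum.elim (Sum.elim (fun _ => x) c) (default : Fin 0 → G)) = k a • x + r a := by
    intro a x
    rw [ev, Fintype.sum_sum_type, Fintype.sum_sum_type, Fin.sum_univ_zero, add_zero,
      Fin.sum_univ_one]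
    rfl
  have he : ∀ a, ∃ e : G, k a ≠ 0 → k a • e = -r a := fun a => by
    by_cases hk : k a = 0
    · exact ⟨0, fun h => absurd hk h⟩
    · obtain ⟨e, he⟩ := hdiv (k a) (-r a) hk
      exact ⟨e, fun _ => he⟩
  choose e he using he
  -- a large element of `H`
  set h := h0 + ∑ a ∈ S.filter (fun a => e a ∈ H), |e a| with hh
  have habs : ∀ x ∈ H, |x| ∈ H := by
    intro x hx
    rcases abs_choice x with h | h <;> rw [h]
    · exact hx
    · exact H.neg_mem hx
  have hhH : h ∈ H := H.add_mem hh0 (H.sum_mem fun a ha => habs _ (Finset.mem_filter.1 ha).2)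
  have hlarge : ∀ a ∈ S, e a ∈ H → e a < h := by
    intro a ha hea
    calc e a ≤ |e a| := le_abs_self _
      _ ≤ ∑ a ∈ S.filter (fun a => e a ∈ H), |e a| :=
        Finset.single_le_sum (f := fun a => |e a|) (fun b _ => abs_nonneg _)
          (Finset.mem_filter.2 ⟨ha, hea⟩)
      _ < h := lt_add_of_pos_left _ hh0pos
  -- a small element outside of `H`
  obtain ⟨m, hm, hmpos, hmin⟩ : ∃ m, m ∉ H ∧ 0 < m ∧ ∀ a ∈ S, e a ∉ H → m ≤ |e a| := by
    let T : Finset G := insert g0 ((S.filter (fun a => e a ∉ H)).image (fun a => |e a|))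
    have hT : T.Nonempty := ⟨g0, Finset.mem_insert_self _ _⟩
    have hTm := T.min'_mem hT
    have hnabs : ∀ x, x ∉ H → |x| ∉ H ∧ 0 < |x| := by
      intro x hx
      constructor
      · intro hc
        apply hx
        rcases abs_choice x with h | h <;> rw [h] at hc
        · exact hc
        · have := H.neg_mem hc
          rwa [neg_neg] at this
      · rw [abs_pos]
        rintro rfl
        exact hx H.zero_mem
    refine ⟨T.min' hT, ?_, ?_, fun a ha hea => ?_⟩
    · rcases Finset.mem_insert.1 hTm with h | h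
      · rw [h]; exact hg0
      · obtain ⟨a, ha, h⟩ := Finset.mem_image.1 h
        rw [← h]
        exact (hnabs _ (Finset.mem_filter.1 ha).2).1
    · rcases Finset.mem_insert.1 hTm with h | h
      · rw [h]; exact hg0pos
      · obtain ⟨a, ha, h⟩ := Finset.mem_image.1 h
        rw [← h]
        exact (hnabs _ (Finset.mem_filter.1 ha).2).2
    · exact T.min'_le _ (Finset.mem_insert_of_mem (Finset.mem_image_of_mem _
        (Finset.mem_filter.2 ⟨ha, hea⟩)))
  obtain ⟨g, hg⟩ := hdiv 2 m two_ne_zero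
  have hgH : g ∉ H := by
    intro hc
    apply hm
    rw [← hg]
    exact H.zsmul_mem hc 2
  have hgpos : 0 < g := by
    by_contra hc
    have h1 : (2 : ℤ) • g ≤ 0 := by
      rw [two_zsmul]
      exact add_nonpos (not_lt.1 hc) (not_lt.1 hc)
    rw [hg] at h1
    exact absurd hmpos (not_lt.2 h1)
  have hgm : g < m := by
    rw [← hg, two_zsmul]
    exact lt_add_of_pos_right _ hgpos
  have hhpos : 0 < h := lt_of_lt_of_le hh0pos (le_add_of_nonneg_right
    (Finset.sum_nonneg fun a _ => abs_nonneg _))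
  have hhg : h < g := by
    by_contra hc
    exact hgH (hconv.out H.zero_mem hhH ⟨hgpos.le, not_lt.1 hc⟩)
  -- the signs at `h` and `g` agree
  have hiff : (h ∈ H ↔ g ∈ H) := by
    rw [hψ, hψ]
    refine hS _ _ _ _ fun a ha => ?_
    rw [hev, hev]
    by_cases hk : k a = 0
    · rw [hk, zero_zsmul, zero_zsmul]
    · have h1 : ∀ x, k a • x + r a = k a • (x - e a) := by
        intro x
        rw [zsmul_sub, he a hk, sub_neg_eq_add]
      rw [h1, h1, sign_zsmul, sign_zsmul]
      congr 1
      by_cases hea : e a ∈ H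
      · have h2 := hlarge a ha hea
        rw [sign_pos (sub_pos.2 h2), sign_pos (sub_pos.2 (h2.trans hhg))]
      · have h2 := hmin a ha hea
        rcases le_or_gt 0 (e a) with h3 | h3
        · rw [abs_of_nonneg h3] at h2
          rw [sign_neg (sub_neg.2 (hhg.trans (hgm.trans_le h2))),
            sign_neg (sub_neg.2 (hgm.trans_le h2))]
        · rw [sign_pos (sub_pos.2 (h3.trans hhpos)), sign_pos (sub_pos.2 (h3.trans hgpos))]
  exact hgH (hiff.1 hhH)

end Pool.Agent.X321.OG
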