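import Mathlib
import Pool.Agent.X321.OG.Conv

set_option autoImplicit false

/-! Convex valuation rings and the value group of the natural valuation. -/

namespace Pool.Agent.X321.OG

variable {K : Type} [Field K] [LinearOrder K] [IsStrictOrderedRing K]

variable (K) in
/-- the valuation ring of the natural valuation: the finite elements -/
def natRing : ValuationSubring K where
  carrier := {x | ∃ n : ℕ, |x| ≤ n}
  mul_mem' := by
    rintro x y ⟨m, hm⟩ ⟨n, hn⟩
    refine ⟨m * n, ?_⟩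
    rw [abs_mul, Nat.cast_mul]
    exact mul_le_mul hm hn (abs_nonneg _) (Nat.cast_nonneg _)
  one_mem' := ⟨1, by simp⟩
  add_mem' := by
    rintro x y ⟨m, hm⟩ ⟨n, hn⟩
    refine ⟨m + n, ?_⟩
    rw [Nat.cast_add]
    exact (abs_add_le x y).trans (add_le_add hm hn)
  zero_mem' := ⟨0, by simp⟩
  neg_mem' := by
    rintro x ⟨m, hm⟩
    exact ⟨m, by rwa [abs_neg]⟩
  mem_or_inv_mem' := by
    intro x
    rcases le_total |x| 1 with h | h
    · exact Or.inl ⟨1, by rwa [Nat.cast_one]⟩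
    · refine Or.inr ⟨1, ?_⟩
      rw [Nat.cast_one, abs_inv]
      exact inv_le_one_of_one_le₀ h

lemma mem_natRing {x : K} : x ∈ natRing K ↔ ∃ n : ℕ, |x| ≤ n := Iff.rfl

/-- the elements bounded by a power of `t` -/
def ringOf (t : K) (ht : 2 ≤ t) : ValuationSubring K where
  carrier := {x | ∃ n : ℕ, |x| ≤ t ^ n}
  mul_mem' := by
    rintro x y ⟨m, hm⟩ ⟨n, hn⟩
    refine ⟨m + n, ?_⟩
    rw [abs_mul, pow_add]
    exact mul_le_mul hm hn (abs_nonneg _) (by positivity)
  one_mem' := ⟨0, by simp⟩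
  add_mem' := by
    rintro x y ⟨m, hm⟩ ⟨n, hn⟩
    refine ⟨max m n + 1, ?_⟩
    have h1 : t ^ m ≤ t ^ max m n := pow_le_pow_right₀ (by linarith) (le_max_left _ _)
    have h2 : t ^ n ≤ t ^ max m n := pow_le_pow_right₀ (by linarith) (le_max_right _ _)
    have h3 : 0 ≤ t ^ max m n := by positivity
    calc |x + y| ≤ |x| + |y| := abs_add_le x y
      _ ≤ t ^ max m n * 2 := by linarith
      _ ≤ t ^ (max m n + 1) := by
        rw [pow_succ]
        exact mul_le_mul_of_nonneg_left ht h3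
  zero_mem' := ⟨0, by simp⟩
  neg_mem' := by
    rintro x ⟨m, hm⟩
    exact ⟨m, by rwa [abs_neg]⟩
  mem_or_inv_mem' := by
    intro x
    rcases le_total |x| 1 with h | h
    · exact Or.inl ⟨0, by rwa [pow_zero]⟩
    · refine Or.inr ⟨0, ?_⟩
      rw [pow_zero, abs_inv]
      exact inv_le_one_of_one_le₀ h

lemma mem_ringOf {t : K} {ht : 2 ≤ t} {x : K} : x ∈ ringOf t ht ↔ ∃ n : ℕ, |x| ≤ t ^ n := Iff.rfl

lemma ringOf_conv (t : K) (ht : 2 ≤ t) : (ringOf t ht : Set K).OrdConnected := by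
  refine ⟨fun x hx y hy z hz => ?_⟩
  obtain ⟨m, hm⟩ := hx
  obtain ⟨n, hn⟩ := hy
  refine ⟨max m n, ?_⟩
  rw [abs_le] at hm hn ⊢
  have h1 : t ^ m ≤ t ^ max m n := pow_le_pow_right₀ (by linarith) (le_max_left _ _)
  have h2 : t ^ n ≤ t ^ max m n := pow_le_pow_right₀ (by linarith) (le_max_right _ _)
  constructor
  · linarith [hz.1]
  · linarith [hz.2]

lemma conv_ge {O : ValuationSubring K} (hO : (O : Set K).OrdConnected) : natRing K ≤ O := by
  rintro x ⟨n, hn⟩
  rw [abs_le] at hn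
  have h1 : (n : K) ∈ O := natCast_mem O n
  exact hO.out (O.neg_mem _ h1) h1 hn

variable (K) in
/-- the value group of the natural valuation, written additively -/
abbrev NatGroup : Type := Additive ((natRing K).ValueGroup)ˣ

/-- the natural valuation on `K*` -/
noncomputable def vNat : Kˣ →* ((natRing K).ValueGroup)ˣ :=
  Units.map ((natRing K).valuation : K →* (natRing K).ValueGroup)

/-- the image `v_nat(O*)` -/
noncomputable def Phi (O : ValuationSubring K) : AddSubgroup (NatGroup K) :=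
  Subgroup.toAddSubgroup (O.unitGroup.map vNat)

lemma mem_Phi {O : ValuationSubring K} {g : NatGroup K} :
    g ∈ Phi O ↔ ∃ u ∈ O.unitGroup, Additive.ofMul (vNat u) = g := by
  change Additive.toMul g ∈ O.unitGroup.map vNat ↔ _
  rw [Subgroup.mem_map]
  rfl

lemma vNat_surj (g : NatGroup K) : ∃ u : Kˣ, Additive.ofMul (vNat u) = g := by
  obtain ⟨x, hx⟩ := (natRing K).valuation_surjective ((Additive.toMul g : _ˣ) : _)
  have hx0 : x ≠ 0 := by
    rintro rfl
    rw [map_zero] at hx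
    exact (Additive.toMul g).ne_zero hx.symm
  exact ⟨Units.mk0 x hx0, congrArg Additive.ofMul (Units.ext hx)⟩

lemma vNat_le {x y : Kˣ} : Additive.ofMul (vNat x) ≤ Additive.ofMul (vNat y) ↔
    (x : K) / y ∈ natRing K := by
  change (natRing K).valuation (x : K) ≤ (natRing K).valuation (y : K) ↔ _
  rw [← ValuationSubring.valuation_le_one_iff, map_div₀, div_le_one₀]
  rw [zero_lt_iff]
  exact (Valuation.ne_zero_iff _).2 y.ne_zero

omit [LinearOrder K] [IsStrictOrderedRing K] in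
lemma mem_unitGroup {O : ValuationSubring K} {x : Kˣ} :
    x ∈ O.unitGroup ↔ (x : K) ∈ O ∧ (x : K)⁻¹ ∈ O := by
  constructor
  · intro h
    constructor
    · rw [← ValuationSubring.valuation_le_one_iff]
      exact le_of_eq h
    · rw [← ValuationSubring.valuation_le_one_iff, ← Units.val_inv_eq_inv_val]
      exact le_of_eq (inv_mem h : x⁻¹ ∈ O.unitGroup)
  · rintro ⟨h1, h2⟩
    rw [ValuationSubring.mem_unitGroup_iff]
    apply le_antisymm
    · exact (ValuationSubring.valuation_le_one_iff _ _).2 h1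
    · have h3 := (ValuationSubring.valuation_le_one_iff O _).2 h2
      rw [map_inv₀] at h3
      have h4 : O.valuation (x : K) ≠ 0 := (Valuation.ne_zero_iff _).2 x.ne_zero
      exact (inv_le_one₀ (zero_lt_iff.2 h4)).1 h3

/-- `x` is a unit of `O` if `v(x)` is in the image of the units -/
lemma unit_of_Phi {O : ValuationSubring K} (hO : natRing K ≤ O) {x : Kˣ}
    (h : Additive.ofMul (vNat x) ∈ Phi O) : x ∈ O.unitGroup := by
  obtain ⟨u, hu, he⟩ := mem_Phi.1 h
  have h1 := vNat_le.1 he.le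
  have h2 := vNat_le.1 he.ge
  rw [mem_unitGroup] at hu ⊢
  have hx := x.ne_zero
  have hu0 := u.ne_zero
  constructor
  · have := O.mul_mem _ _ hu.1 (hO h2)
    rwa [mul_div_cancel₀ _ hu0] at this
  · have := O.mul_mem _ _ hu.2 (hO h1)
    rwa [← mul_div_assoc, inv_mul_cancel₀ hu0, one_div] at this

lemma Phi_conv {O : ValuationSubring K} (hO : natRing K ≤ O) :
    (Phi O : Set (NatGroup K)).OrdConnected := by
  refine ⟨fun g hg h hh z hz => ?_⟩
  obtain ⟨u, hu, rfl⟩ := mem_Phi.1 hg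
  obtain ⟨w, hw, rfl⟩ := mem_Phi.1 hh
  obtain ⟨x, rfl⟩ := vNat_surj z
  refine mem_Phi.2 ⟨x, ?_, rfl⟩
  have h1 := vNat_le.1 hz.1
  have h2 := vNat_le.1 hz.2
  rw [mem_unitGroup] at hu hw ⊢
  have hx := x.ne_zero
  have hu0 := u.ne_zero
  have hw0 := w.ne_zero
  constructor
  · have := O.mul_mem _ _ hw.1 (hO h2)
    rwa [mul_div_cancel₀ _ hw0] at this
  · have := O.mul_mem _ _ hu.2 (hO h1)
    rwa [← mul_div_assoc, inv_mul_cancel₀ hu0, one_div] at this

/-- the value group is divisible if there are approximate roots -/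
lemma divisible (hroot : ∀ (x : K) (n : ℕ), 0 < x → n ≠ 0 → ∃ y : K, x ≤ y ^ n ∧ y ^ n ≤ 2 ^ n * x)
    (q : ℤ) (g : NatGroup K) (hq : q ≠ 0) : ∃ h : NatGroup K, q • h = g := by
  have key : ∀ (n : ℕ) (g : NatGroup K), n ≠ 0 → ∃ h : NatGroup K, n • h = g := by
    intro n g hn
    obtain ⟨x, rfl⟩ := vNat_surj g
    have hx : 0 < |(x : K)| := abs_pos.2 x.ne_zero
    obtain ⟨y, hy1, hy2⟩ := hroot |(x : K)| n hx hn
    have hy0 : y ≠ 0 := by
      rintro rfl
      rw [zero_pow hn] at hy1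
      exact absurd hx (not_lt.2 hy1)
    have hyn : 0 < y ^ n := lt_of_lt_of_le hx hy1
    refine ⟨Additive.ofMul (vNat (Units.mk0 y hy0)), ?_⟩
    have e : n • Additive.ofMul (vNat (Units.mk0 y hy0)) =
        Additive.ofMul (vNat (Units.mk0 y hy0 ^ n)) := by
      rw [map_pow]
      rfl
    rw [e]
    apply le_antisymm
    · rw [vNat_le]
      refine ⟨2 ^ n, ?_⟩
      rw [Units.val_pow_eq_pow_val, Units.val_mk0, abs_div, abs_of_pos hyn, div_le_iff₀ hx]
      push_cast
      exact hy2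
    · rw [vNat_le]
      refine ⟨1, ?_⟩
      rw [Units.val_pow_eq_pow_val, Units.val_mk0, abs_div, abs_of_pos hyn, div_le_iff₀ hyn,
        Nat.cast_one, one_mul]
      exact hy1
  rcases Int.eq_nat_or_neg q with ⟨n, rfl | rfl⟩
  · obtain ⟨h, hh⟩ := key n g (by rintro rfl; exact hq rfl)
    exact ⟨h, by rw [natCast_zsmul, hh]⟩
  · obtain ⟨h, hh⟩ := key n g (by rintro rfl; exact hq rfl)
    exact ⟨-h, by rw [neg_zsmul, zsmul_neg, natCast_zsmul, hh, neg_neg]⟩

/-- the image of a nontrivial convex valuation ring is not definable -/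
theorem not_definable
    (hroot : ∀ (x : K) (n : ℕ), 0 < x → n ≠ 0 → ∃ y : K, x ≤ y ^ n ∧ y ^ n ≤ 2 ^ n * x)
    (O : ValuationSubring K) (hO : (O : Set K).OrdConnected) (htop : O ≠ ⊤)
    (hnat : ∃ x ∈ O, x ∉ natRing K) : ¬ GroupDefinable (Phi O) := by
  intro hdef
  have hle := conv_ge hO
  rcases eq_bot_or_top (divisible hroot) (Phi O) (Phi_conv hle) hdef with h | h
  · obtain ⟨x, hx, hx'⟩ := hnat
    have hx0 : x ≠ 0 := by
      rintro rfl
      exact hx' (natRing K).zero_mem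
    have hxi : x⁻¹ ∈ natRing K := ((natRing K).mem_or_inv_mem x).resolve_left hx'
    have h1 : Units.mk0 x hx0 ∈ O.unitGroup := mem_unitGroup.2 ⟨hx, hle hxi⟩
    have h2 : Additive.ofMul (vNat (Units.mk0 x hx0)) ∈ Phi O := mem_Phi.2 ⟨_, h1, rfl⟩
    rw [h, AddSubgroup.mem_bot] at h2
    have h3 : Additive.ofMul (vNat (Units.mk0 x hx0)) ≤ Additive.ofMul (vNat (1 : Kˣ)) := by
      rw [h2, map_one]
      exact le_refl _
    rw [vNat_le, Units.val_one, div_one] at h3
    exact hx' h3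
  · apply htop
    rw [eq_top_iff]
    intro x _
    by_cases hx0 : x = 0
    · rw [hx0]
      exact O.zero_mem
    · have h2 : Additive.ofMul (vNat (Units.mk0 x hx0)) ∈ Phi O := by
        rw [h]
        trivial
      exact (mem_unitGroup.1 (unit_of_Phi hle h2)).1

end Pool.Agent.X321.OG
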