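import Mathlib

set_option autoImplicit false

/-! Ultrapowers of the real numbers and of the real algebraic numbers. -/

namespace Pool.Agent.X321.OG

open Filter Polynomial

variable {I : Type}

/-- the ultrapower of the real numbers -/
abbrev GR (U : Ultrafilter I) : Type := Germ (U : Filter I) ℝ

variable {U : Ultrafilter I}

/-- the germ of a function -/
def of (U : Ultrafilter I) (f : I → ℝ) : GR U := (↑f : Germ (U : Filter I) ℝ)

lemma of_surj (x : GR U) : ∃ f, of U f = x := Quot.exists_rep x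

lemma of_eq {f g : I → ℝ} : of U f = of U g ↔ ∀ᶠ n in (U : Filter I), f n = g n :=
  Germ.coe_eq

lemma of_lt {f g : I → ℝ} : of U f < of U g ↔ ∀ᶠ n in (U : Filter I), f n < g n :=
  Germ.coe_lt

lemma of_le {f g : I → ℝ} : of U f ≤ of U g ↔ ∀ᶠ n in (U : Filter I), f n ≤ g n :=
  Germ.coe_le

lemma of_pow (f : I → ℝ) (n : ℕ) : of U f ^ n = of U (fun i => f i ^ n) := rfl

lemma of_mul (f g : I → ℝ) : of U f * of U g = of U (fun i => f i * g i) := rfl

lemma of_add (f g : I → ℝ) : of U f + of U g = of U (fun i => f i + g i) := rfl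

lemma of_natCast (n : ℕ) : (n : GR U) = of U (fun _ => (n : ℝ)) := rfl

lemma of_sum (n : ℕ) (f : ℕ → I → ℝ) (r : I → ℝ) :
    ∑ i ∈ Finset.range n, of U (f i) * of U r ^ i =
      of U (fun k => ∑ i ∈ Finset.range n, f i k * r k ^ i) := by
  induction n with
  | zero => rfl
  | succ n ih =>
    rw [Finset.sum_range_succ, ih]
    have : (fun k => ∑ i ∈ Finset.range (n + 1), f i k * r k ^ i) =
        (fun k => ∑ i ∈ Finset.range n, f i k * r k ^ i) + f n * r ^ n := by
      funext k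
      rw [Finset.sum_range_succ]
      rfl
    rw [this]
    rfl

/-- the field of germs of families of real algebraic numbers -/
def FG (U : Ultrafilter I) : Subfield (GR U) where
  carrier := {x | ∃ f : I → ℝ, (∀ n, IsAlgebraic ℚ (f n)) ∧ of U f = x}
  mul_mem' := by
    rintro _ _ ⟨f, hf, rfl⟩ ⟨g, hg, rfl⟩
    exact ⟨fun n => f n * g n, fun n => (hf n).mul (hg n), rfl⟩
  one_mem' := ⟨fun _ => 1, fun _ => isAlgebraic_one, rfl⟩
  add_mem' := by
    rintro _ _ ⟨f, hf, rfl⟩ ⟨g, hg, rfl⟩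
    exact ⟨fun n => f n + g n, fun n => (hf n).add (hg n), rfl⟩
  zero_mem' := ⟨fun _ => 0, fun _ => isAlgebraic_zero, rfl⟩
  neg_mem' := by
    rintro _ ⟨f, hf, rfl⟩
    exact ⟨fun n => -f n, fun n => (hf n).neg, rfl⟩
  inv_mem' := by
    rintro _ ⟨f, hf, rfl⟩
    exact ⟨fun n => (f n)⁻¹, fun n => (hf n).inv, rfl⟩

lemma mem_FG {x : GR U} : x ∈ FG U ↔ ∃ f : I → ℝ, (∀ n, IsAlgebraic ℚ (f n)) ∧ of U f = x :=
  Iff.rfl

/-- `FG` is dense -/
lemma FG_dense (x y : GR U) (h : x < y) : ∃ z ∈ FG U, x < z ∧ z < y := by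
  obtain ⟨f, rfl⟩ := of_surj x
  obtain ⟨g, rfl⟩ := of_surj y
  have h1 : ∀ k, ∃ q : ℚ, f k < g k → f k < q ∧ (q : ℝ) < g k := by
    intro k
    by_cases hk : f k < g k
    · obtain ⟨q, hq⟩ := exists_rat_btwn hk
      exact ⟨q, fun _ => hq⟩
    · exact ⟨0, fun h => absurd h hk⟩
  choose q hq using h1
  refine ⟨of U (fun k => (q k : ℝ)), ⟨fun k => (q k : ℝ),
    fun k => isAlgebraic_ratCast ℚ (q k), rfl⟩, ?_, ?_⟩
  · rw [of_lt] at h ⊢
    filter_upwards [h] with k hk using (hq k hk).1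
  · rw [of_lt] at h ⊢
    filter_upwards [h] with k hk using (hq k hk).2

/-- roots of positive elements -/
lemma exists_root (x : GR U) (hx : 0 < x) (n : ℕ) (hn : n ≠ 0) : ∃ z : GR U, 0 < z ∧ z ^ n = x := by
  obtain ⟨f, rfl⟩ := of_surj x
  have hx' : ∀ᶠ i in (U : Filter I), 0 < f i := of_lt.1 hx
  refine ⟨of U (fun i => if 0 < f i then (f i) ^ ((n : ℝ)⁻¹) else 1), ?_, ?_⟩
  · refine of_lt.2 ?_
    filter_upwards [hx'] with i hi
    rw [if_pos hi]
    exact Real.rpow_pos_of_pos hi _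
  · rw [of_pow, of_eq]
    filter_upwards [hx'] with i hi
    rw [if_pos hi, Real.rpow_inv_natCast_pow hi.le hn]

/-- square roots in `FG` -/
lemma FG_sqrt (x : GR U) (hx : x ∈ FG U) (h : 0 ≤ x) : ∃ y ∈ FG U, y ^ 2 = x := by
  obtain ⟨f, hf, rfl⟩ := hx
  have h' : ∀ᶠ i in (U : Filter I), 0 ≤ f i := of_le.1 h
  refine ⟨of U (fun i => if 0 ≤ f i then √(f i) else 0), ⟨_, fun i => ?_, rfl⟩, ?_⟩
  · by_cases hi : 0 ≤ f i
    · rw [if_pos hi]
      refine IsAlgebraic.of_pow (n := 2) (by norm_num) ?_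
      rw [Real.sq_sqrt hi]
      exact hf i
    · rw [if_neg hi]
      exact isAlgebraic_zero
  · rw [of_pow, of_eq]
    filter_upwards [h'] with i hi
    rw [if_pos hi, Real.sq_sqrt hi]

/-- cube roots in `FG` -/
lemma FG_cube (x : GR U) (hx : x ∈ FG U) : ∃ y ∈ FG U, y ^ 3 = x := by
  obtain ⟨f, hf, rfl⟩ := hx
  have hr : ∀ a : ℝ, ∃ b : ℝ, b ^ 3 = a := by
    intro a
    rcases le_total 0 a with h | h
    · exact ⟨a ^ (((3 : ℕ) : ℝ)⁻¹), Real.rpow_inv_natCast_pow h (by norm_num)⟩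
    · refine ⟨-(-a) ^ (((3 : ℕ) : ℝ)⁻¹), ?_⟩
      have := Real.rpow_inv_natCast_pow (n := 3) (neg_nonneg.2 h) (by norm_num)
      rw [Odd.neg_pow (by decide), this, neg_neg]
  choose b hb using fun i => hr (f i)
  refine ⟨of U b, ⟨b, fun i => ?_, rfl⟩, ?_⟩
  · refine IsAlgebraic.of_pow (n := 3) (by norm_num) ?_
    rw [hb]
    exact hf i
  · rw [of_pow, of_eq]
    exact Eventually.of_forall hb

/-- transcendental numbers are transcendental over `FG` -/
lemma transcendental_FG (x : ℝ) (hx : Transcendental ℚ x) :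
    Transcendental (FG U) (of U (fun _ => x)) := by
  rintro ⟨p, hp, h⟩
  choose f hf hf' using fun i => mem_FG.1 (p.coeff i).2
  set n := p.natDegree with hn
  have h1 : ∀ᶠ k in (U : Filter I), ∑ i ∈ Finset.range (n + 1), f i k * x ^ i = 0 := by
    rw [aeval_eq_sum_range, ← hn] at h
    have h2 : ∀ i, p.coeff i • (of U (fun _ => x)) ^ i = of U (f i) * (of U (fun _ => x)) ^ i := by
      intro i
      rw [hf' i]
      rfl
    simp only [h2] at h
    rw [of_sum] at h
    exact of_eq.1 h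
  have h2 : ∀ᶠ k in (U : Filter I), f n k ≠ 0 := by
    have h3 : p.coeff n ≠ 0 := fun e => hp (leadingCoeff_eq_zero.1 e)
    have h4 : ¬ ∀ᶠ k in (U : Filter I), f n k = 0 := by
      intro h5
      apply h3
      apply Subtype.ext
      rw [← hf' n]
      exact of_eq.2 h5
    exact Ultrafilter.eventually_not.2 h4
  obtain ⟨k, hk1, hk2⟩ := (h1.and h2).exists
  let A := algebraicClosure ℚ ℝ
  have hA : ∀ i, f i k ∈ A := fun i => mem_algebraicClosure_iff.2 (hf i k)
  let q : A[X] := ∑ i ∈ Finset.range (n + 1), C ⟨f i k, hA i⟩ * X ^ i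
  have hq : q.coeff n = ⟨f n k, hA n⟩ := by
    simp only [q, finsetSum_coeff, coeff_C_mul, coeff_X_pow, mul_ite, mul_one, mul_zero]
    rw [Finset.sum_ite_eq, if_pos (Finset.mem_range.2 (Nat.lt_succ_self n))]
  have halg : IsAlgebraic A x := by
    refine ⟨q, ?_, ?_⟩
    · intro e
      rw [e, coeff_zero] at hq
      exact hk2 (congrArg Subtype.val hq).symm
    · simp only [q, map_sum, map_mul, aeval_C, map_pow, aeval_X]
      exact hk1
  have h3 : x ∈ algebraicClosure A ℝ := mem_algebraicClosure_iff.2 halg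
  rw [algebraicClosure.algebraicClosure_eq_bot, IntermediateField.mem_bot] at h3
  obtain ⟨y, rfl⟩ := h3
  exact hx (mem_algebraicClosure_iff.1 y.2)

/-- a transcendental real number -/
lemma exists_transcendental : ∃ x : ℝ, Transcendental ℚ x :=
  ⟨liouvilleNumber 2, fun h => transcendental_liouvilleNumber (m := 2) le_rfl
    ((IsFractionRing.isAlgebraic_iff ℤ ℚ ℝ).2 h)⟩

end Pool.Agent.X321.OG
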