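import Mathlib
import Pool.Agent.X321.OG.Ultra

set_option autoImplicit false

/-! Elements of an ultrapower which grow fast. -/

namespace Pool.Agent.X321.OG

open Filter

variable (X : Type) [LinearOrder X] [Infinite X]

/-- the ultrafilter -/
noncomputable def UX : Ultrafilter (Finset X) := Ultrafilter.of atTop

omit [LinearOrder X] [Infinite X] in
lemma ev_ge (s : Finset X) : ∀ᶠ i in (UX X : Filter (Finset X)), s ≤ i :=
  (Filter.eventually_ge_atTop s).filter_mono (Ultrafilter.of_le _)

variable {X}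

/-- the family of fast growing functions -/
def tX (α : X) (i : Finset X) : ℕ := 2 ^ ((i.card + 2) ^ ((i.filter (· < α)).card + 1))

/-- a still faster function -/
def wX (i : Finset X) : ℕ := 2 ^ ((i.card + 2) ^ (i.card + 2))

omit [Infinite X] in
lemma card_lt {α β : X} (h : α < β) {i : Finset X} (hα : α ∈ i) :
    (i.filter (· < α)).card + 1 ≤ (i.filter (· < β)).card := by
  classical
  have h1 : α ∉ i.filter (· < α) := by
    rw [Finset.mem_filter]
    exact fun h => lt_irrefl _ h.2
  rw [← Finset.card_insert_of_notMem h1]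
  apply Finset.card_le_card
  intro x hx
  rw [Finset.mem_insert, Finset.mem_filter] at hx
  rw [Finset.mem_filter]
  rcases hx with rfl | ⟨hx, hx'⟩
  · exact ⟨hα, h⟩
  · exact ⟨hx, hx'.trans h⟩

lemma exists_big (α : X) (n : ℕ) : ∃ s : Finset X, α ∈ s ∧ n ≤ s.card := by
  classical
  obtain ⟨s, hs⟩ := Infinite.exists_subset_card_eq X n
  exact ⟨insert α s, Finset.mem_insert_self _ _, hs ▸ Finset.card_le_card (Finset.subset_insert _ _)⟩

omit [Infinite X] in
lemma pow_lt_aux {N n p p' : ℕ} (hN : n < N) (hp : p + 1 ≤ p') :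
    (2 ^ (N ^ (p + 1))) ^ n < 2 ^ (N ^ (p' + 1)) := by
  rw [← pow_mul]
  apply Nat.pow_lt_pow_right (by norm_num)
  have hN0 : 0 < N := by omega
  calc N ^ (p + 1) * n < N ^ (p + 1) * N := Nat.mul_lt_mul_of_pos_left hN (by positivity)
    _ = N ^ (p + 2) := (pow_succ _ _).symm
    _ ≤ N ^ (p' + 1) := Nat.pow_le_pow_right hN0 (by omega)

/-- the elements -/
noncomputable def tG (α : X) : GR (UX X) := of (UX X) (fun i => (tX α i : ℝ))

/-- a larger element -/
noncomputable def wG : GR (UX X) := of (UX X) (fun i => (wX i : ℝ))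

lemma tG_lt {α β : X} (h : α < β) (n : ℕ) : tG α ^ n < tG β := by
  obtain ⟨s, hs, hn⟩ := exists_big α n
  rw [tG, tG, of_pow, of_lt]
  filter_upwards [ev_ge X s] with i hi
  have h1 := Finset.card_le_card hi
  have h2 := pow_lt_aux (N := i.card + 2) (n := n) (by omega) (card_lt h (hi hs))
  exact_mod_cast h2

lemma tG_lt_wG (α : X) (n : ℕ) : tG α ^ n < wG := by
  obtain ⟨s, hs, hn⟩ := exists_big α n
  rw [tG, wG, of_pow, of_lt]
  filter_upwards [ev_ge X s] with i hi
  have h1 := Finset.card_le_card hi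
  have h3 : (i.filter (· < α)).card + 1 ≤ i.card + 1 :=
    Nat.succ_le_succ (Finset.card_filter_le _ _)
  have h2 := pow_lt_aux (N := i.card + 2) (n := n) (by omega) h3
  exact_mod_cast h2

lemma natCast_lt_tG (α : X) (n : ℕ) : (n : GR (UX X)) < tG α := by
  obtain ⟨s, hs, hn⟩ := exists_big α n
  rw [tG, of_natCast, of_lt]
  filter_upwards [ev_ge X s] with i hi
  have h1 := Finset.card_le_card hi
  have h2 : n < tX α i := by
    calc n < i.card + 2 := by omega
      _ ≤ (i.card + 2) ^ ((i.filter (· < α)).card + 1) := Nat.le_self_pow (by omega) _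
      _ < 2 ^ ((i.card + 2) ^ ((i.filter (· < α)).card + 1)) := Nat.lt_two_pow_self
  exact_mod_cast h2

omit [Infinite X] in
lemma tG_mem (α : X) : tG α ∈ FG (UX X) := ⟨_, fun i => isAlgebraic_natCast (tX α i), rfl⟩

omit [LinearOrder X] [Infinite X] in
lemma wG_mem : (wG : GR (UX X)) ∈ FG (UX X) := ⟨_, fun i => isAlgebraic_natCast (wX i), rfl⟩

end Pool.Agent.X321.OG
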